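import Pool.Agent.Helper28.IV2.Spec
import Pool.Agent.Helper28.IV.A

/-!
# Places in intervals: sufficiency
-/

set_option autoImplicit false

namespace Pool.Agent.Helper28.IV2.A
open Filter Topology
open Pool.Agent.Helper84.Places Pool.Agent.Helper28.IV2

lemma nJ_le (S : Set ℕ) (s t : ℕ) : nJ S s t ≤ t := by
  classical
  unfold nJ
  refine (Finset.card_filter_le _ _).trans ?_
  rw [Nat.card_Ico]
  omega

lemma sum_nJ (S : Set ℕ) (u v : ℕ → ℕ) (G : Finset ℕ) (B : ℕ)
    (hB : ∀ j ∈ G, v j ≤ B) (h2 : ∀ n, (G.filter fun j => u j ≤ n ∧ n < v j).card ≤ 2) :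
    ∑ j ∈ G, (nJ S (u j) (v j) : ℝ) ≤ 2 * B := by
  classical
  have h : ∑ j ∈ G, nJ S (u j) (v j) ≤ 2 * B := by
    have e : ∀ j ∈ G, nJ S (u j) (v j) ≤
        ∑ n ∈ Finset.range B, (if u j ≤ n ∧ n < v j then 1 else 0) := by
      intro j hj
      rw [Finset.sum_boole]
      simp only [Nat.cast_id]
      unfold nJ
      apply Finset.card_le_card
      intro n hn
      have := hB j hj
      rw [Finset.mem_filter, Finset.mem_Ico] at hn
      rw [Finset.mem_filter, Finset.mem_range]
      exact ⟨by omega, hn.1⟩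
    refine (Finset.sum_le_sum e).trans ?_
    rw [Finset.sum_comm]
    calc _ ≤ ∑ _n ∈ Finset.range B, 2 := by
          apply Finset.sum_le_sum
          intro n _
          rw [Finset.sum_boole]
          simpa using h2 n
      _ = 2 * B := by simp [mul_comm]
  exact_mod_cast h

/-- splitting according to the words -/
lemma splitJ {b : ℕ} (S : Set ℕ) (a : ℕ → Fin b) {M : ℕ} (P : (Fin M → Fin b) → Prop)
    [DecidablePred P] [DecidablePred (· ∈ S)] (i s t : ℕ) :
    ((Finset.Ico s t).filter fun n => n ∈ S ∧ P (wd a M (n + i))).card =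
      ∑ x ∈ wP (fun x : Fin (i + M) → Fin b => P (fun l => x (Fin.natAdd i l))), cJ S a s t x := by
  classical
  unfold wP
  have e : ∀ n, (fun l : Fin M => wd a (i + M) n (Fin.natAdd i l)) = wd a M (n + i) := by
    intro n
    funext l
    unfold wd
    rw [Fin.val_natAdd, add_assoc]
  rw [Finset.card_eq_sum_card_fiberwise (f := fun n => wd a (i + M) n)
    (t := Finset.univ.filter (fun x : Fin (i + M) → Fin b => P (fun l => x (Fin.natAdd i l))))]
  · apply Finset.sum_congr
    · congr!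
    intro x hx
    have hx2 : P (fun l => x (Fin.natAdd i l)) := by
      refine (mem_wP (fun x : Fin (i + M) → Fin b => P (fun l => x (Fin.natAdd i l))) x).1 ?_
      unfold wP
      convert hx
    unfold cJ
    congr 1
    ext n
    simp only [Finset.mem_filter, Finset.mem_Ico]
    constructor
    · rintro ⟨⟨h1, h2, -⟩, h3⟩
      exact ⟨h1, h2, h3⟩
    · rintro ⟨h1, h2, h3⟩
      refine ⟨⟨h1, h2, ?_⟩, h3⟩
      rw [← e n, h3]
      exact hx2
  · intro n hn
    simp only [Finset.coe_filter, Set.mem_ofPred_eq, Finset.mem_univ, true_and,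
      Finset.mem_Ico] at hn ⊢
    rw [e n]
    exact hn.2.2

open Classical in
/-- the places with a word in `P` -/
lemma cP_le (S : Set ℕ) (u v : ℕ → ℕ) {b : ℕ} (a : ℕ → Fin b) {M : ℕ}
    (P : (Fin M → Fin b) → Prop) (hv : Tendsto v atTop atTop) (J0 V0 K C N : ℕ)
    (hV0 : ∀ j < J0, v j ≤ V0) :
    ∃ G : Finset ℕ, (∀ j ∈ G, J0 ≤ j ∧ v j ≤ C * N) ∧
      (∀ n, (G.filter fun j => u j ≤ n ∧ n < v j).card ≤ 2) ∧
      cP a P N ≤ (V0 + K) + uns S u v K C N + ∑ i ∈ Finset.range K, ∑ j ∈ G,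
        ((Finset.Ico (u j) (v j)).filter fun n => n ∈ S ∧ P (wd a M (n + i))).card := by
  obtain ⟨J, hJ⟩ := (tendsto_atTop_atTop.1 hv) (C * N + 1)
  obtain ⟨G, hGF, hGc, hG2⟩ := Pool.Agent.Helper28.IV.A.cover u v
    ((Finset.range J).filter fun j => J0 ≤ j ∧ v j ≤ C * N)
  refine ⟨G, fun j hj => (Finset.mem_filter.1 (hGF hj)).2, fun n => by
    convert hG2 n, ?_⟩
  have hsub : ((Finset.range N).filter fun n => P (wd a M n)) ⊆
      (Finset.range (V0 + K) ∪ ((Finset.range N).filter fun n => ∀ s ∈ S, s ≤ n → n < s + K →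
        ∀ j, v j ≤ C * N → ¬ (u j ≤ s ∧ s < v j))) ∪
      (Finset.range K).biUnion fun i => G.biUnion fun j =>
        ((Finset.Ico (u j) (v j)).filter fun n => n ∈ S ∧ P (wd a M (n + i))).image (· + i) := by
    intro n hn
    rw [Finset.mem_filter, Finset.mem_range] at hn
    by_cases hc : ∀ s ∈ S, s ≤ n → n < s + K → ∀ j, v j ≤ C * N → ¬ (u j ≤ s ∧ s < v j)
    · apply Finset.mem_union_left
      apply Finset.mem_union_right
      rw [Finset.mem_filter, Finset.mem_range]
      exact ⟨hn.1, hc⟩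
    · push Not at hc
      obtain ⟨s, hsS, hsn, hsK, j, hj1, hj2, hj3⟩ := hc
      by_cases hjJ : j < J0
      · apply Finset.mem_union_left
        apply Finset.mem_union_left
        rw [Finset.mem_range]
        have := hV0 j hjJ
        omega
      · apply Finset.mem_union_right
        have hjJ' : j < J := by
          by_contra hcon
          have := hJ j (by omega)
          omega
        obtain ⟨g, hg1, hg2, hg3⟩ := hGc s ⟨j, by
          rw [Finset.mem_filter, Finset.mem_range]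
          exact ⟨hjJ', by omega, hj1⟩, hj2, hj3⟩
        rw [Finset.mem_biUnion]
        refine ⟨n - s, Finset.mem_range.2 (by omega), ?_⟩
        rw [Finset.mem_biUnion]
        refine ⟨g, hg1, ?_⟩
        rw [Finset.mem_image]
        refine ⟨s, ?_, by omega⟩
        rw [Finset.mem_filter, Finset.mem_Ico]
        refine ⟨⟨hg2, hg3⟩, hsS, ?_⟩
        have e : s + (n - s) = n := by omega
        rw [e]
        exact hn.2
  unfold cP
  refine (Finset.card_le_card hsub).trans ?_
  refine (Finset.card_union_le _ _).trans ?_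
  apply Nat.add_le_add
  · refine (Finset.card_union_le _ _).trans ?_
    rw [Finset.card_range]
    unfold uns
    apply le_of_eq
    congr!
  · refine Finset.card_biUnion_le.trans ?_
    apply Finset.sum_le_sum
    intro i _
    refine Finset.card_biUnion_le.trans ?_
    apply Finset.sum_le_sum
    intro j _
    exact Finset.card_image_le

theorem main : S_A := by
  intro b _ S u v a hlim hcov C hC0 hC m hm w
  classical
  have hb : (0 : ℝ) < b := by exact_mod_cast Nat.pos_of_ne_zero (NeZero.ne b)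
  have hv : Tendsto v atTop atTop :=
    tendsto_atTop_mono (fun j => nJ_le S (u j) (v j)) hlim
  rw [Metric.tendsto_nhds]
  intro ε0 hε0
  set η : ℝ := ε0 / 8 with hη
  have hη0 : 0 < η := by positivity
  obtain ⟨K, Q, hK⟩ := hcov (ε0 / 8) (by positivity)
  obtain ⟨L, hL1, hL2⟩ : ∃ L : ℕ, 0 < L ∧ 2 * Q * K * C * (2 * m / (η ^ 2 * L)) ≤ ε0 / 8 := by
    obtain ⟨L, hL⟩ := exists_nat_gt (2 * Q * K * C * (2 * m) / (η ^ 2 * (ε0 / 8)))
    have hL0 : (0 : ℝ) < L := lt_of_le_of_lt (by positivity) hL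
    refine ⟨L, by exact_mod_cast hL0, ?_⟩
    rw [div_lt_iff₀ (by positivity)] at hL
    rw [← mul_div_assoc, div_le_iff₀ (by positivity)]
    linarith
  set M := L + m with hM
  set W : ℝ := ((wP (Bad L w η)).card : ℝ) with hW
  have hW0 : 0 ≤ W := Nat.cast_nonneg _
  have hW1 : W ≤ 2 * m / (η ^ 2 * L) * (b : ℝ) ^ M := card_bad w hη0 hL1
  set D : ℝ := 1 + 2 * Q * ∑ i ∈ Finset.range K, (b : ℝ) ^ i * W with hD
  have hD0 : 1 ≤ D := by
    have : 0 ≤ 2 * (Q : ℝ) * ∑ i ∈ Finset.range K, (b : ℝ) ^ i * W := by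
      apply mul_nonneg (by positivity)
      exact Finset.sum_nonneg fun j _ => by positivity
    linarith
  set η' : ℝ := ε0 / 8 / D with hη'
  have hη'0 : 0 < η' := by positivity
  have hall : ∀ᶠ j : ℕ in atTop, ∀ i ∈ Finset.range K, ∀ x : Fin (i + M) → Fin b,
      (cJ S a (u j) (v j) x : ℝ) ≤ (C / (b : ℝ) ^ (i + M) + η') * (nJ S (u j) (v j) : ℝ) := by
    rw [Filter.eventually_all_finset]
    intro i _
    rw [Filter.eventually_all]
    intro x
    exact hC (i + M) (by omega) x η' hη'0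
  obtain ⟨J0, hJ0⟩ := eventually_atTop.1 hall
  set V0 := (Finset.range J0).sup v with hV0
  obtain ⟨N0, hN0⟩ := exists_nat_gt ((V0 + K + L) / (ε0 / 8))
  filter_upwards [hK, eventually_ge_atTop N0, eventually_gt_atTop 0] with N a1 a3 a4
  have hN : (0 : ℝ) < N := by exact_mod_cast a4
  have hKL : (V0 : ℝ) + K + L ≤ ε0 / 8 * N := by
    have h1 : (N0 : ℝ) ≤ N := by exact_mod_cast a3
    rw [div_lt_iff₀ (by positivity)] at hN0
    nlinarith
  obtain ⟨G, hG1, hG2, hG3⟩ := cP_le S u v a (Bad L w η) hv J0 V0 K Q N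
    (fun j hj => Finset.le_sup (f := v) (Finset.mem_range.2 hj))
  have hlen := sum_nJ S u v G (Q * N) (fun j hj => (hG1 j hj).2) (fun n => by
    convert hG2 n)
  have hQ : ∀ i ∈ Finset.range K, ∑ j ∈ G, ((((Finset.Ico (u j) (v j)).filter fun n =>
      n ∈ S ∧ Bad L w η (wd a M (n + i))).card : ℕ) : ℝ) ≤
      (C * (W / (b : ℝ) ^ M) + η' * ((b : ℝ) ^ i * W)) * (2 * Q * N) := by
    intro i hi
    have h1 : ∀ j ∈ G, ((((Finset.Ico (u j) (v j)).filter fun n =>
        n ∈ S ∧ Bad L w η (wd a M (n + i))).card : ℕ) : ℝ) ≤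
        (C * (W / (b : ℝ) ^ M) + η' * ((b : ℝ) ^ i * W)) * (nJ S (u j) (v j) : ℝ) := by
      intro j hj
      rw [splitJ]
      push_cast
      refine (Finset.sum_le_sum fun x _ => hJ0 j (hG1 j hj).1 i hi x).trans ?_
      rw [Finset.sum_const, nsmul_eq_mul, card_suffix]
      push_cast
      rw [← hW, pow_add]
      have hbj : (0 : ℝ) < (b : ℝ) ^ i := by positivity
      have hbM : (0 : ℝ) < (b : ℝ) ^ M := by positivity
      apply le_of_eq
      field_simp
    refine (Finset.sum_le_sum h1).trans ?_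
    rw [← Finset.mul_sum]
    apply mul_le_mul_of_nonneg_left _ (by positivity)
    refine hlen.trans ?_
    push_cast
    linarith
  have hsum : ∑ i ∈ Finset.range K, ∑ j ∈ G, ((((Finset.Ico (u j) (v j)).filter fun n =>
      n ∈ S ∧ Bad L w η (wd a M (n + i))).card : ℕ) : ℝ) ≤ ε0 / 4 * N := by
    refine (Finset.sum_le_sum hQ).trans ?_
    rw [← Finset.sum_mul, Finset.sum_add_distrib, Finset.sum_const, Finset.card_range,
      nsmul_eq_mul, ← Finset.mul_sum]
    have h1 : W / (b : ℝ) ^ M ≤ 2 * m / (η ^ 2 * L) := by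
      rw [div_le_iff₀ (by positivity)]
      exact hW1
    have h2 : 2 * Q * K * C * (W / (b : ℝ) ^ M) ≤ ε0 / 8 :=
      le_trans (mul_le_mul_of_nonneg_left h1 (by positivity)) hL2
    have h3 : (2 * Q * ∑ i ∈ Finset.range K, (b : ℝ) ^ i * W) * η' ≤ ε0 / 8 := by
      have h4 : 2 * Q * ∑ i ∈ Finset.range K, (b : ℝ) ^ i * W ≤ D := by
        rw [hD]
        linarith
      calc _ ≤ D * η' := mul_le_mul_of_nonneg_right h4 hη'0.le
        _ = ε0 / 8 := by
          rw [hη']
          field_simp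
    have e : ((K : ℝ) * (C * (W / (b : ℝ) ^ M)) + η' * ∑ i ∈ Finset.range K, (b : ℝ) ^ i * W) *
        (2 * Q * N) = (2 * Q * K * C * (W / (b : ℝ) ^ M) +
          (2 * Q * ∑ i ∈ Finset.range K, (b : ℝ) ^ i * W) * η') * N := by
      ring
    rw [e]
    apply mul_le_mul_of_nonneg_right _ hN.le
    linarith
  have hcP : (cP a (Bad L w η) N : ℝ) ≤ V0 + K + ε0 / 8 * N + ε0 / 4 * N := by
    have h2 : (cP a (Bad L w η) N : ℝ) ≤
        (V0 + K) + uns S u v K Q N + ∑ i ∈ Finset.range K, ∑ j ∈ G,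
          ((((Finset.Ico (u j) (v j)).filter fun n =>
            n ∈ S ∧ Bad L w η (wd a M (n + i))).card : ℕ) : ℝ) := by
      exact_mod_cast hG3
    linarith
  have hav := average a w hL1 hη0 N
  rw [Real.dist_eq]
  have e : (cS Set.univ a N w : ℝ) / N - pb b m = ((cS Set.univ a N w : ℝ) - pb b m * N) / N := by
    field_simp
  rw [e, abs_div, abs_of_pos hN, div_lt_iff₀ hN]
  have : η * N = ε0 / 8 * N := by rw [hη]
  nlinarith

end Pool.Agent.Helper28.IV2.A
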