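import Pool.Agent.Helper84.Places.Real

/-!
# Which places in which intervals decide normality: definitions and parts (MP_57632f_nt)

`S` is a set of places and `I_j = [u j, v j)` is a sequence of intervals such that the number of the
places of `S` in `I_j` tends to infinity.
-/

set_option autoImplicit false

namespace Pool.Agent.Helper28.IV2
open Filter Topology
open Pool.Agent.Helper84.Places

open Classical in
/-- the number of the places `s ≤ i < t` of `S` at which the word `w` stands -/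
noncomputable def cJ {b : ℕ} (S : Set ℕ) (a : ℕ → Fin b) (s t : ℕ) {k : ℕ} (w : Fin k → Fin b) : ℕ :=
  ((Finset.Ico s t).filter fun i => i ∈ S ∧ wd a k i = w).card

open Classical in
/-- the number of the places `s ≤ i < t` of `S` -/
noncomputable def nJ (S : Set ℕ) (s t : ℕ) : ℕ := ((Finset.Ico s t).filter fun i => i ∈ S).card

/-- normality at the places of `S` in the intervals -/
def Norm {b : ℕ} (S : Set ℕ) (u v : ℕ → ℕ) (a : ℕ → Fin b) : Prop :=
  ∀ k : ℕ, 0 < k → ∀ w : Fin k → Fin b,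
    Tendsto (fun j => (cJ S a (u j) (v j) w : ℝ) / (nJ S (u j) (v j) : ℝ)) atTop (𝓝 (pb b k))

open Classical in
/-- the number of the places `n < N` which belong to no word of length `K` that begins at a place
`s` of `S` in an interval `I_j` contained in `[0, C N)` -/
noncomputable def uns (S : Set ℕ) (u v : ℕ → ℕ) (K C N : ℕ) : ℕ :=
  ((Finset.range N).filter fun n => ∀ s ∈ S, s ≤ n → n < s + K →
    ∀ j, v j ≤ C * N → ¬ (u j ≤ s ∧ s < v j)).card

/-- the covering condition -/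
def Cov (S : Set ℕ) (u v : ℕ → ℕ) : Prop :=
  ∀ ε : ℝ, 0 < ε → ∃ K C : ℕ, ∀ᶠ N : ℕ in atTop, (uns S u v K C N : ℝ) ≤ ε * N

/-- A: sufficiency -/
def S_A : Prop := ∀ (b : ℕ) [NeZero b] (S : Set ℕ) (u v : ℕ → ℕ) (a : ℕ → Fin b),
  Tendsto (fun j => nJ S (u j) (v j)) atTop atTop → Cov S u v → ∀ C : ℝ, 0 ≤ C →
  (∀ k : ℕ, 0 < k → ∀ w : Fin k → Fin b, ∀ η : ℝ, 0 < η →
    ∀ᶠ j : ℕ in atTop, (cJ S a (u j) (v j) w : ℝ) ≤
      (C / (b : ℝ) ^ k + η) * (nJ S (u j) (v j) : ℝ)) →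
  ∀ m : ℕ, 0 < m → ∀ w : Fin m → Fin b,
    Tendsto (fun N : ℕ => (cS Set.univ a N w : ℝ) / N) atTop (𝓝 (pb b m))

/-- N: the construction (like `Pool.Agent.Helper9.IV.B`).  If `y` itself is not normal take `x = y`.
Otherwise for infinitely many `i` at most half of the places of `Z i` carry the digit `e`, with `e = 0`
or `e = 1` fixed.  Let `x = e` on the `Z i` for these `i` and `x = y` elsewhere.  For a word length
`k`: the `Z i` with `i < k` are seen from at most a constant number of places; for `i ≥ k`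
(so that `K i ≥ k`) the set `Z i` is seen from `S ∩ I_j` only if `i * N i ≤ nJ S (u j) (v j)`, and if `i`
is the largest such index, then all these places are `< N i`. -/
def S_N : Prop := ∀ (b : ℕ) [NeZero b] (S : Set ℕ) (u v : ℕ → ℕ) (y : ℕ → Fin b), 2 ≤ b →
  Tendsto (fun j => nJ S (u j) (v j)) atTop atTop → Norm S u v y →
  ∀ (ε : ℝ) (N : ℕ → ℕ) (Z : ℕ → Finset ℕ), 0 < ε → StrictMono N → 
    (∀ i, Z i ⊆ Finset.range (N i)) → (∀ i, ε * (N i : ℝ) < ((Z i).card : ℝ)) →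
    (∀ i j, (∀ s ∈ S, u j ≤ s → s < v j → ∀ n ∈ Z i, ¬ (s ≤ n ∧ n < s + i)) ∨
      i * N i ≤ nJ S (u j) (v j)) →
  ∃ x : ℕ → Fin b, Norm S u v x ∧ ∃ (m : ℕ) (w : Fin m → Fin b), 0 < m ∧
    ¬ Tendsto (fun N : ℕ => (cS Set.univ x N w : ℝ) / N) atTop (𝓝 (pb b m))

/-- Z: choice of the sets.  If `Cov S univ-intervals` fails, that is if for some `ε` and all `K` for
infinitely many `N` more than `ε N` places `n < N` have no `s ∈ S` with `s ≤ n < s + K`, take these `n` with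
`K = i`: then the first alternative holds for all `j`.  Otherwise `nJ S 0 M ≥ M / (2 K0)` for all large
`M`; take the places counted in `uns S u v i (C i) (N i)` with `C i ≥ 2 K0 (i + 1)`: if a place
`s ∈ S ∩ I_j` with `s ≤ n < N i` exists, then `I_j` is not contained in `[0, C i N i)`, so it contains
`[N i, C i N i)` and `nJ S (u j) (v j) ≥ i * N i`. -/
def S_Z : Prop := ∀ (S : Set ℕ) (u v : ℕ → ℕ), ¬ Cov S u v →
  ∃ (ε : ℝ) (N : ℕ → ℕ) (Z : ℕ → Finset ℕ), 0 < ε ∧ StrictMono N ∧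
    (∀ i, Z i ⊆ Finset.range (N i)) ∧ (∀ i, ε * (N i : ℝ) < ((Z i).card : ℝ)) ∧
    (∀ i j, (∀ s ∈ S, u j ≤ s → s < v j → ∀ n ∈ Z i, ¬ (s ≤ n ∧ n < s + i)) ∨
      i * N i ≤ nJ S (u j) (v j))

/-- C: existence (like `Pool.Agent.Helper88.IV.C`) -/
def S_C : Prop := ∀ (b : ℕ) [NeZero b] (S : Set ℕ) (u v : ℕ → ℕ), 2 ≤ b →
  (∀ j, 0 < nJ S (u j) (v j)) → Summable (fun j => 1 / (nJ S (u j) (v j) : ℝ)) →
  ∃ y : ℕ → Fin b, Norm S u v y

open Classical in
/-- the number of the places `n < N` which belong to no word of length `K` that begins at a place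
of `S` -/
noncomputable def mis (S : Set ℕ) (K N : ℕ) : ℕ :=
  ((Finset.range N).filter fun n => ∀ s ∈ S, s ≤ n → ¬ n < s + K).card

/-- D: cutoffs (like `Pool.Agent.Helper28.IV.cut_iff`) -/
def S_D : Prop := ∀ (S : Set ℕ) (N : ℕ → ℕ), StrictMono N → 0 < N 0 →
  (Cov S (fun _ => 0) N ↔
    ((∀ ε : ℝ, 0 < ε → ∃ K : ℕ, ∀ᶠ M : ℕ in atTop, (mis S K M : ℝ) ≤ ε * M) ∧
      ∃ C : ℕ, ∀ j, N (j + 1) ≤ C * N j))

end Pool.Agent.Helper28.IV2
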